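import Pool.Agent.U919.OQ.Fin

/-!
# Isometries of `x y + q(z)`, `q` anisotropic, over polynomial rings are Farrell–Jones groups

`C` is any class of groups with the closure properties `ClosedE C` which contains the metabelian groups.
The class of the groups which satisfy the A-theoretic Farrell–Jones Conjecture with coefficients and
finite wreath products has these properties.
-/

set_option autoImplicit false

namespace Pool.Agent.Results.MP_59dd5b_al.IsometriesWittIndexOne

open Pool.Agent.U919.GE.Law (Cl)
open Pool.Agent.U919.OQ Pool.Agent.U919.OQ.Law

/-- Let `C` be a class of groups with the closure properties `ClosedE C` which contains the metabelian
groups. Let `S` be a commutative ring with a degree function and a retraction onto the ring `R` of the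
elements of degree zero, let `q` be a quadratic form over `R` in finitely many variables which is
anisotropic over `S` with respect to the degree.

* A group of matrices over `S`, contained in the group generated by the isometries of `x y + q(z)` over
  `R` and the Siegel transformations over `S`, is in `C` if its image under the retraction is in `C`.
* For every group `A` of isometries of `x y + q(z)` over `R`: the group generated by `A` and the Siegel
  transformations over `R` is in `C` iff the one generated by `A` and the Siegel transformations over `S`
  is.
* An example are the polynomial rings over domains `R` and the forms `q` which are anisotropic over `R`.
* If `k` is a field and `q` is anisotropic over `k`, then a group of isometries of `x y + q(z)` over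
  `k[X]` is in `C` if its image at `X = 0` is in `C` or trivial; the group of all isometries over `k[X]` is
  in `C` iff the group of all isometries over `k` is, and it is in `C` if `k` is finite. -/
theorem result (C : ∀ (G : Type) [Group G], Prop) (hC : Cl C) :
    Subgroups C ∧ Extensions C ∧ Polynomials ∧ Fields C :=
  ⟨subgroups hC, extensions hC, polynomials, fields hC⟩

end Pool.Agent.Results.MP_59dd5b_al.IsometriesWittIndexOne
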