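import Pool.Agent.U385.RT.Comm

/-!
# Relations between commuting retracts and the Farrell-Jones conjecture in A-theory

`C` is any class of groups with the closure properties `ClosedE C`, all of which are known for the
class of the groups that satisfy the A-theoretic Farrell-Jones conjecture with coefficients and
finite wreath products.

Let `Γ` be a graph (finite or infinite) with groups `G v` at the vertices, and let `R` be a set of
elements of the free product of the groups `G v`. Suppose that each `r ∈ R` is supported on a
clique of `Γ` and becomes trivial if any one of the groups of its support is killed (`Rel Γ G r`).
No other condition is put on the relations. Let `Q` be the free product modulo the relations `R`.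

* `Q` is in `C` if and only if its subgroups generated by the groups `G v`, `v ∈ σ`, are in `C`,
  for all finite cliques `σ` of `Γ`.

Examples: graph products (the cliques give direct products); Artin groups with even
labels, where `r = (a b) ^ m (b a) ^ (-m)` (the reduction to cliques is then due to X. Wu);
graph products in which the direct products of two groups are replaced by their nilpotent, solvable or
any other verbal product `G v * G w / (V ∩ [G v, G w])`; higher graph products, where the relations
are commutators of elements of three or more groups.

* If `Γ` has no triangles and `H v w ≤ G v` are arbitrary subgroups, then the quotient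
  `P` of the free product by the relations `[H v w, H w v] = 1` for all edges `{v, w}` is in `C` if
  and only if all `G v` are in `C`.

For instance, `⟨V | [v ^ p(v, w), w ^ p(w, v)] = 1⟩` is in `C` for every graph `Γ` without triangles.

Outline of the proof. `Q` has commuting endomorphisms `e S`, `S ⊆ V`, with `e S ∘ e T = e (S ∩ T)`,
which kill the groups outside `S`. If `u` and `v` are not adjacent then `Q` is the amalgamated product
of the images of `e (V - u)` and `e (V - v)`, and the same holds inside the image of `e S`. An
amalgamated product of groups in `C` is in `C` if it has a homomorphism to a group in `C` which is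
injective on the amalgamated subgroup; here the retraction to one of the two factors. This proves the
first part by induction. In the second part the groups of the edges are again amalgamated products with
such homomorphisms: `(X *_H (H × H')) *_(H') Y` for `X = G v`, `Y = G w`, `H = H v w`, `H' = H w v`.
-/

set_option autoImplicit false

namespace Pool.Agent.Results.MP_59dd5b_al.RetractiveRelations

open Pool.Agent.Y110.FJ (ClosedE)
open Pool.Agent.U385.RT (Rel gp pcRel pres_main pc_main C_vertex)

/-- Let `C` be a class of groups with the closure properties `ClosedE C`, and let `G v` be groups
indexed by the vertices of a graph `Γ`. Let `R` be a set of elements of the free product of the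
groups `G v`, each of which is supported on a clique of `Γ` and becomes trivial if one of the groups
of its support is killed. Then the quotient of the free product by the relations `R` is in `C` if and
only if its subgroups generated by the groups `G v`, `v ∈ σ`, are in `C`, for all finite cliques `σ` of
`Γ`. If `Γ` has no triangles then for all subgroups `H v w ≤ G v` the quotient by the relations
`[H v w, H w v] = 1`, `{v, w}` an edge, is in `C` if and only if all `G v` are in `C`. -/
theorem result (C : ∀ (G : Type) [Group G], Prop) (hC : ClosedE C) {V : Type}
    (Γ : SimpleGraph V) (G : V → Type) [∀ v, Group (G v)] :
    (∀ R : Set (Monoid.CoprodI G), (∀ r ∈ R, Rel Γ G r) →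
      (C (Monoid.CoprodI G ⧸ Subgroup.normalClosure R) ↔
        ∀ σ : Set V, σ.Finite → (∀ u ∈ σ, ∀ v ∈ σ, u ≠ v → Γ.Adj u v) → C (gp R σ))) ∧
    ((∀ u v w, Γ.Adj u v → Γ.Adj v w → ¬ Γ.Adj u w) → ∀ H : ∀ v : V, V → Subgroup (G v),
      (C (Monoid.CoprodI G ⧸ Subgroup.normalClosure (pcRel Γ H)) ↔ ∀ v, C (G v))) :=
  ⟨fun _ hR => pres_main hC hR, fun hΓ H =>
    ⟨fun h v => C_vertex Γ H hC h v, fun h => pc_main Γ H hC h hΓ⟩⟩

end Pool.Agent.Results.MP_59dd5b_al.RetractiveRelations
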