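import Pool.Agent.U89.TK.Perm

/-!
# Groups of triangular automorphisms of free products and the Farrell–Jones conjecture

`C` is any class of groups with the closure properties `ClosedE C`. All of them are known for the class
of the groups that satisfy the Farrell–Jones conjecture for `A`-theory with coefficients and finite
wreath products.

Let `P` be the free product of nontrivial subgroups `B i`, where `I` is any partially ordered set (of
any cardinality, also a dense order). Let `G` act on `P` by *triangular* automorphisms: every `g` maps
every `B i` into `u (B k) u⁻¹` for some `k`, where `u` is in the subgroup generated by the `B j` with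
`j < k`. Let `Θ i` be a group of automorphisms of `B i` which contains all the automorphisms
`b ↦ u⁻¹ g(b) u` for the `g` with `k = i`, for instance the group of all automorphisms.

**Theorem.** (1) Let `N` be a normal subgroup of `G` which acts faithfully on `P` and whose elements fix
almost all `B i` pointwise. If the groups `B i ⋊ Θ i` and `G ⧸ N` are in `C` then `G` is in `C`.

(2) In particular, let `P` be the free group with basis `I` and suppose that every `g` in `G` maps every
`x_i` to `u (x_k)^(±1) u⁻¹` for some `k` and some `u` in the subgroup generated by the `x_j` with `j < k`.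
Let `N` be a normal subgroup of `G` which acts faithfully and whose elements fix almost all `x_i`. If
`G ⧸ N` is in `C` then `G` is in `C`. No other hypothesis is needed.

For example `N` can be the group of all automorphisms of the free group with basis `ℚ` which fix almost
all `x_i` and map every `x_i` to a conjugate of `x_i` or its inverse by an element of the subgroup
generated by the `x_j` with `j < i`, and `G = N ⋊ Q` for any group `Q` in `C` which acts on `ℚ` by order
preserving permutations.

Outline of the proof. By the deletion theorem of `MP_63c928_gt.DeletionKernels` (the same author) it is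
enough to consider the groups of automorphisms of the free products of finitely many factors `B i`,
`i ∈ D`, which are induced by the stabilizers of `D`, and then their subgroups of finite index which
fix `D` pointwise. Let `T` be such a group acting faithfully on `P_D`, let `d` be maximal in `D` and let `K`
be the subgroup generated by the other factors. It is preserved by `T`. By a map to a wreath product no
nontrivial element of `K` conjugates a nontrivial element of `B d` into `B d`. Hence the elements `u τ`
of `K` with `τ (B d) = (u τ) (B d) (u τ)⁻¹` are unique and form a cocycle, and `T` acts on `P_D` also by the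
automorphisms `x ↦ (u τ)⁻¹ τ(x) (u τ)`, which preserve `K` and `B d`. The semidirect product for this
action is the same group `P_D ⋊ T`, and it is the amalgamated product of `K ⋊ T` and `(B d) ⋊ T` over
`T`; it is in `C` if `K ⋊ T` and `(B d) ⋊ (Θ d)` are, because it has a homomorphism to their product which
is injective on both factors. Finally `τ ↦ ((u τ)⁻¹, τ|K), b ↦ (u τ)⁻¹ τ(b) (u τ)` embeds `T` in
`(K ⋊ T_K) × Θ d` where `T_K` is the group of automorphisms of `K` induced by `T`, and `K ⋊ T` embeds in
`(K ⋊ T_K) × T`. By induction on the number of elements of `D` the group `P_D ⋊ T` is in `C`.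
-/

set_option autoImplicit false

namespace Pool.Agent.Results.MP_59dd5b_al.TriangularAutomorphisms

open Pool.Agent.Y110.FJ (ClosedE)

/-- `P` is the free product of its subgroups `B i`: it is generated by them, and homomorphisms on the
`B i` extend to `P` -/
structure IsFreeProduct {P I : Type} [Group P] (B : I → Subgroup P) : Prop where
  gen : ⨆ i, B i = ⊤
  univ : ∀ (H : Type) [Group H] (f : ∀ i, B i →* H), ∃ φ : P →* H, ∀ i (b : B i), φ b = f i b

/-- `φ` maps `A` into `u B u⁻¹` -/
def MapsInto {P : Type} [Group P] (φ : MulAut P) (u : P) (A B : Subgroup P) : Prop :=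
  ∀ a ∈ A, u⁻¹ * φ a * u ∈ B

/-- the map `b ↦ u⁻¹ φ(b) u` is an element of the group `Θ` of automorphisms of `B` -/
def ActsThrough {P : Type} [Group P] (φ : MulAut P) (u : P) {B : Subgroup P}
    (Θ : Subgroup (MulAut B)) : Prop :=
  ∃ θ ∈ Θ, ∀ b : B, u⁻¹ * φ b * u = (θ b : B)

/-- each `g` maps each `B i` into `u (B k) u⁻¹` for some `k` and some `u` in the subgroup generated by
the `B j` with `j < k`; if `k = i` then `b ↦ u⁻¹ g(b) u` is in the given group `Θ i` of automorphisms of
`B i` -/
def Triangular {P I G : Type} [Group P] [Group G] [PartialOrder I] (B : I → Subgroup P)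
    (Θ : ∀ i, Subgroup (MulAut (B i))) (α : G →* MulAut P) : Prop :=
  ∀ g i, ∃ k, ∃ u ∈ ⨆ j, ⨆ (_ : j < k), B j, MapsInto (α g) u (B i) (B k) ∧
    (k = i → ActsThrough (α g) u (Θ i))

/-- each `g` maps each basis element `x i` to `u (x k)^(±1) u⁻¹` for some `k` and some `u` in the subgroup
generated by the `x j` with `j < k` -/
def TriangularOnBasis {I G : Type} [Group G] [PartialOrder I] (α : G →* MulAut (FreeGroup I)) :
    Prop :=
  ∀ g i, ∃ k, ∃ u ∈ Subgroup.closure (FreeGroup.of '' {j | j < k}), ∃ ε : ℤˣ,
    α g (FreeGroup.of i) = u * FreeGroup.of k ^ (ε : ℤ) * u⁻¹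

/-- `N` acts faithfully on `P` and each element of `N` fixes almost all `B i` pointwise -/
def AlmostTrivial {P I G : Type} [Group P] [Group G] (B : I → Subgroup P) (α : G →* MulAut P)
    (N : Subgroup G) : Prop :=
  (∀ n ∈ N, α n = 1 → n = 1) ∧ ∀ n ∈ N, {i | ∃ b ∈ B i, α n b ≠ b}.Finite

/-- (1) for the class `C`: extensions of groups in `C` by groups of triangular automorphisms of free
products which fix almost all factors pointwise -/
def ForFreeProducts (C : ∀ (G : Type) [Group G], Prop) : Prop :=
  ∀ (P I G : Type) [Group P] [PartialOrder I] [Group G] (B : I → Subgroup P)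
    (Θ : ∀ i, Subgroup (MulAut (B i))) (α : G →* MulAut P) (N : Subgroup G) [N.Normal],
    IsFreeProduct B → (∀ i, B i ≠ ⊥) → (∀ i, C (B i ⋊[(Θ i).subtype] Θ i)) →
    Triangular B Θ α → AlmostTrivial B α N → C (G ⧸ N) → C G

/-- (2) for the class `C`: extensions of groups in `C` by groups of triangular automorphisms of free
groups which fix almost all elements of the basis -/
def ForFreeGroups (C : ∀ (G : Type) [Group G], Prop) : Prop :=
  ∀ (I G : Type) [PartialOrder I] [Group G] (α : G →* MulAut (FreeGroup I)) (N : Subgroup G)
    [N.Normal], TriangularOnBasis α →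
    (∀ n ∈ N, {i | α n (FreeGroup.of i) ≠ FreeGroup.of i}.Finite) →
    (∀ n ∈ N, α n = 1 → n = 1) → C (G ⧸ N) → C G

/-- Both statements hold for all classes `C` with the closure properties `ClosedE C`. -/
theorem result (C : ∀ (G : Type) [Group G], Prop) (hC : ClosedE C) :
    ForFreeProducts C ∧ ForFreeGroups C := by
  refine ⟨?_, ?_⟩
  · intro P I G _ _ _ B Θ α N _ hB hne hΘ ht hN hQ
    exact Pool.Agent.U89.TK.main' hC ⟨hB.gen, hB.univ⟩ hne hΘ ht N hN.2 hN.1 hQ
  · intro I G _ _ α N _ ht hfin hf hQ
    exact Pool.Agent.U89.TK.main_free' hC α ht N hfin hf hQ

end Pool.Agent.Results.MP_59dd5b_al.TriangularAutomorphisms
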