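import Pool.Agent.U89.UF.Main

/-!
# Finitary unipotent kernels and the Farrell–Jones conjecture

`C` is any class of groups with the closure properties `ClosedE C` which contains the solvable
groups. This is known for the class of the groups that satisfy the A-theoretic Farrell–Jones
conjecture with coefficients and finite wreath products (solvable groups: Kasprowski, Ullmann,
Wegner, Winges).

A linear representation `j` of a group on a vector space `V` of any dimension is *finitary unipotent*
(`FinitaryUnipotent j`) if all `j x - 1` are nilpotent of finite rank.

**Theorem.** Let `N` be a normal subgroup of a group `G`. Suppose that for all `g ∈ G` and all finite
sets `E ⊆ N` the group `orb g E`, which is generated by the conjugates of the elements of `E` by the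
powers of `g`, has a faithful finitary unipotent representation over some field in which the
conjugation by `g` is induced by a linear automorphism `p` (both may depend on `g` and `E`). If
`G ⧸ N` is in `C` then `G` is in `C`.

In particular, if `G` is any group of automorphisms of a vector space of any dimension over any field
and `N` is a normal subgroup of `G` which consists of finitary unipotent automorphisms, then `G` is in
`C` if `G ⧸ N` is. The group `N` is locally nilpotent; it need not be solvable, hypercentral or
residually nilpotent (for example the groups of McLain, which may be perfect), and there need not be
a basis in which all its elements have finite support.

Outline of the proof. By the extension criterion it suffices that the group `H` generated by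
`A = orb g E` and `p` is in `C`. Let `U` be the finite dimensional sum of the images of `e - 1`,
`e ∈ E`, and `M` the sum of the `p ^ i U`. The operators `t p ^ k`, `t = e - 1`, act on `U`; they
generate a semigroup which is graded by the integers, and by Kolchin's theorem its elements of degree
zero are nilpotent. The main lemma: if such a graded semigroup acts irreducibly on a space of finite
dimension then the degrees of its nonzero elements are bounded from below or bounded from above. It
follows that `V` has a finite chain of `H`-invariant subspaces such that on each factor the
intersection of all powers of the augmentation ideal of `A` vanishes. The elements of `A` which act
trivially on all factors form a nilpotent normal subgroup `K` of `H`, and modulo `K` every finitely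
generated subgroup of `A` meets some term of the derived series of `A` trivially, by finite dimension.
-/

set_option autoImplicit false

namespace Pool.Agent.Results.MP_59dd5b_al.UnipotentKernels

open Pool.Agent.Y110.FJ (ClosedE)
open Pool.Agent.U89.UF

/-- Extensions of groups in `C` by groups which are locally finitary unipotent linear groups. -/
theorem result (C : ∀ (G : Type) [Group G], Prop) (hC : ClosedE C)
    (hsol : ∀ (S : Type) [Group S], Group.IsSolvable S → C S)
    (G : Type) [Group G] (N : Subgroup G) [N.Normal] (hQ : C (G ⧸ N))
    (h : ∀ (g : G) (E : Set G), E.Finite → E ⊆ N → UnipotentlyRealized g E) : C G :=
  unip_main C hC hsol G N hQ h

end Pool.Agent.Results.MP_59dd5b_al.UnipotentKernels
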